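import Pool.Agent.Lib.MP_d338c6_lc.Lift

/-!
Simultaneous fixed points in GLP and the construction of a projective unifier.
-/

set_option autoImplicit false

namespace Pool.Agent.Lib.MP_d338c6_lc

open Fm

variable {α β : Type}

/-- Two tuples of formulas agree at v and at all K-successors of v. -/
def Agree {J : Type} (K : ℕ) (v : Fm α → Prop) (s t : J → Fm α) : Prop :=
  ∀ j, (v (s j) ↔ v (t j)) ∧ ∀ w, Pt w → R K v w → (w (s j) ↔ w (t j))

/-- An operation on tuples of formulas respects agreement at level K. -/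
def Ext {J : Type} (K : ℕ) (G : (J → Fm α) → Fm α) : Prop :=
  ∀ s t v, Pt v → Agree K v s t → (v (G s) ↔ v (G t))

theorem Agree.mono {J : Type} {K K' : ℕ} (h : K ≤ K') {v : Fm α → Prop} (hv : Pt v)
    {s t : J → Fm α} (ha : Agree K v s t) : Agree K' v s t :=
  fun j => ⟨(ha j).1, fun w hw hR => (ha j).2 w hw (hv.R_mono h hR)⟩

theorem Agree.succ {J : Type} {K : ℕ} {v w : Fm α → Prop} (hv : Pt v) (hw : Pt w)
    (hR : R K v w) {s t : J → Fm α} (ha : Agree K v s t) : Agree K w s t :=
  fun j => ⟨(ha j).2 w hw hR, fun u hu hR' => (ha j).2 u hu (hv.R_trans hR hR')⟩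

theorem box_congr {v : Fm α → Prop} (hv : Pt v) {k : ℕ} {a b : Fm α}
    (h : ∀ w, Pt w → R k v w → (w a ↔ w b)) : v (box k a) ↔ v (box k b) :=
  ⟨fun ha => hv.box_of (fun w hw hR => (h w hw hR).1 (hR _ ha)),
    fun hb => hv.box_of (fun w hw hR => (h w hw hR).2 (hR _ hb))⟩

theorem fix_one (k : ℕ) (f : Fm α → Fm α)
    (hf : ∀ a b v, Pt v → (v a ↔ v b) → (∀ w, Pt w → R k v w → (w a ↔ w b)) →
      (v (f a) ↔ v (f b))) (v : Fm α → Prop) (hv : Pt v) :
    v (box k (f top)) ↔ v (box k (f (box k (f top)))) := by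
  have key : ∀ w, Pt w → w (box k (f top)) → (w (f (box k (f top))) ↔ w (f top)) := by
    intro w hw hD
    refine hf _ _ w hw ⟨fun _ => hw.top, fun _ => hD⟩ (fun u hu hR => ?_)
    exact ⟨fun _ => hu.top, fun _ => hw.box_succ le_rfl hR hD⟩
  constructor
  · intro hD
    exact hv.box_of (fun w hw hR => (key w hw (hv.box_succ le_rfl hR hD)).2 (hR _ hD))
  · intro h
    exact hv.loeb (fun w hw hR hD => (key w hw hD).1 (hR _ h))

theorem fix_system {J : Type} (lev : J → ℕ) (S : Finset J) :
    ∀ (K : ℕ) (G : J → (J → Fm α) → Fm α), (∀ j ∈ S, lev j ≤ K) → (∀ j ∈ S, Ext K (G j)) →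
      ∃ s : J → Fm α, ∀ j ∈ S, ∀ v, Pt v → (v (s j) ↔ v (box (lev j) (G j s))) := by
  classical
  induction S using Finset.induction_on_max_value lev with
  | empty => intro K G _ _; exact ⟨fun _ => top, fun j hj => absurd hj (Finset.notMem_empty j)⟩
  | insert j0 S hj0 hmax ih =>
    intro K G hK hG
    have hk0 : lev j0 ≤ K := hK j0 (Finset.mem_insert_self _ _)
    have hG0 : Ext K (G j0) := hG j0 (Finset.mem_insert_self _ _)
    let e : (J → Fm α) → Fm α := fun s => box (lev j0) (G j0 (Function.update s j0 top))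
    have hupd : ∀ (s t : J → Fm α) (a b : Fm α) (v : Fm α → Prop), Agree (lev j0) v s t →
        (v a ↔ v b) → (∀ w, Pt w → R (lev j0) v w → (w a ↔ w b)) →
        Agree (lev j0) v (Function.update s j0 a) (Function.update t j0 b) := by
      intro s t a b v ha h1 h2 j
      by_cases hj : j = j0
      · subst hj
        simp only [Function.update_self]
        exact ⟨h1, h2⟩
      · simp only [Function.update_of_ne hj]
        exact ha j
    have he : ∀ (s t : J → Fm α) (v : Fm α → Prop), Pt v → Agree (lev j0) v s t →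
        (v (e s) ↔ v (e t)) := by
      intro s t v hv ha
      refine box_congr hv (fun w hw hR => hG0 _ _ w hw (Agree.mono hk0 hw ?_))
      exact hupd s t top top w (ha.succ hv hw hR) Iff.rfl (fun _ _ _ => Iff.rfl)
    obtain ⟨s', hs'⟩ := ih (lev j0) (fun j s => G j (Function.update s j0 (e s))) hmax (by
      intro j hj s t v hv ha
      refine hG j (Finset.mem_insert_of_mem hj) _ _ v hv (Agree.mono hk0 hv ?_)
      exact hupd s t _ _ v ha (he s t v hv ha) (fun w hw hR => he s t w hw (ha.succ hv hw hR)))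
    refine ⟨Function.update s' j0 (e s'), fun j hj v hv => ?_⟩
    rcases Finset.mem_insert.1 hj with rfl | hj'
    · rw [Function.update_self]
      refine fix_one (lev j) (fun a => G j (Function.update s' j a)) ?_ v hv
      intro a b w hw h1 h2
      refine hG0 _ _ w hw (Agree.mono hk0 hw ?_)
      exact hupd s' s' a b w (fun _ => ⟨Iff.rfl, fun _ _ _ => Iff.rfl⟩) h1 h2
    · have hne : j ≠ j0 := fun h => hj0 (h ▸ hj')
      rw [Function.update_of_ne hne]
      exact hs' j hj' v hv

/-- The list of all boxed subformulas, as pairs of level and body. -/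
def boxes : Fm α → List (ℕ × Fm α)
  | var _ => []
  | bot => []
  | imp a b => boxes a ++ boxes b
  | box k a => (k, a) :: boxes a

/-- The Boolean skeleton of a formula with variables and maximal boxed subformulas replaced. -/
def sk (p : α → Fm β) (s : ℕ × Fm α → Fm β) : Fm α → Fm β
  | var i => p i
  | bot => bot
  | imp a b => imp (sk p s a) (sk p s b)
  | box k a => s (k, a)

/-- Truth value of the Boolean skeleton. -/
def pe (p : α → Prop) (s : ℕ × Fm α → Prop) : Fm α → Prop
  | var i => p i
  | bot => False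
  | imp a b => pe p s a → pe p s b
  | box k a => s (k, a)

theorem sk_iff {v : Fm β → Prop} (hv : Pt v) (p : α → Fm β) (s : ℕ × Fm α → Fm β) (a : Fm α) :
    v (sk p s a) ↔ pe (fun i => v (p i)) (fun j => v (s j)) a := by
  induction a with
  | var i => exact Iff.rfl
  | bot => exact ⟨hv.bot, False.elim⟩
  | imp a b iha ihb => simp only [sk, pe, hv.imp, iha, ihb]
  | box k a _ => exact Iff.rfl

theorem subst_iff {v : Fm β → Prop} (hv : Pt v) (σ : α → Fm β) (a : Fm α) :
    v (subst σ a) ↔ pe (fun i => v (σ i)) (fun j => v (box j.1 (subst σ j.2))) a := by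
  induction a with
  | var i => exact Iff.rfl
  | bot => exact ⟨hv.bot, False.elim⟩
  | imp a b iha ihb => simp only [subst_imp, pe, hv.imp, iha, ihb]
  | box k a _ => exact Iff.rfl

theorem pe_congr {p p' : α → Prop} {s s' : ℕ × Fm α → Prop} (a : Fm α)
    (hp : ∀ i, p i ↔ p' i) (hs : ∀ j ∈ boxes a, s j ↔ s' j) : pe p s a ↔ pe p' s' a := by
  induction a with
  | var i => exact hp i
  | bot => exact Iff.rfl
  | imp a b iha ihb =>
    simp only [pe]
    rw [iha (fun j hj => hs j (List.mem_append_left _ hj)),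
      ihb (fun j hj => hs j (List.mem_append_right _ hj))]
  | box k a _ => exact hs _ List.mem_cons_self

/-- If-then-else on formulas. -/
def ite' (c a b : Fm β) : Fm β := Fm.and (imp c a) (imp (neg c) b)

theorem ite'_iff {v : Fm β → Prop} (hv : Pt v) (c a b : Fm β) :
    v (ite' c a b) ↔ (v c → v a) ∧ (¬ v c → v b) := by
  rw [ite', hv.and, hv.imp, hv.imp, hv.neg]

/-- A truth value as a formula. -/
def tv : Bool → Fm β
  | true => top
  | false => bot

theorem tv_iff {v : Fm β → Prop} (hv : Pt v) (b : Bool) : v (tv b) ↔ b = true := by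
  cases b
  · simpa [tv] using hv.bot
  · simpa [tv] using hv.top

/-- The first valuation of the list that makes the skeleton of φ true. -/
def pick (φ : Fm α) (s : ℕ × Fm α → Fm β) : List (α → Bool) → α → Fm β
  | [], _ => bot
  | a :: l, i => ite' (sk (fun i => tv (a i)) s φ) (tv (a i)) (pick φ s l i)

theorem pick_congr (φ : Fm α) (s t : ℕ × Fm α → Fm β) {v : Fm β → Prop} (hv : Pt v)
    (h : ∀ j, v (s j) ↔ v (t j)) (l : List (α → Bool)) (i : α) :
    v (pick φ s l i) ↔ v (pick φ t l i) := by
  induction l with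
  | nil => exact Iff.rfl
  | cons a l ih =>
    simp only [pick, ite'_iff hv, sk_iff hv, ih]
    rw [pe_congr φ (fun _ => Iff.rfl) (fun j _ => h j)]

theorem pick_spec (φ : Fm α) (s : ℕ × Fm α → Fm β) {v : Fm β → Prop} (hv : Pt v)
    (l : List (α → Bool)) (h : ∃ a ∈ l, pe (fun i => a i = true) (fun j => v (s j)) φ) :
    pe (fun i => v (pick φ s l i)) (fun j => v (s j)) φ := by
  induction l with
  | nil => obtain ⟨a, ha, -⟩ := h; exact absurd ha List.not_mem_nil
  | cons a l ih =>
    by_cases ha : pe (fun i => a i = true) (fun j => v (s j)) φ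
    · refine (pe_congr φ (fun i => ?_) (fun _ _ => Iff.rfl)).1 ha
      simp only [pick, ite'_iff hv, sk_iff hv, tv_iff hv]
      tauto
    · have h' : ∃ a ∈ l, pe (fun i => a i = true) (fun j => v (s j)) φ := by
        obtain ⟨b, hb, hb'⟩ := h
        rcases List.mem_cons.1 hb with rfl | hb
        · exact absurd hb' ha
        · exact ⟨b, hb, hb'⟩
      refine (pe_congr φ (fun i => ?_) (fun _ _ => Iff.rfl)).1 (ih h')
      simp only [pick, ite'_iff hv, sk_iff hv, tv_iff hv]
      tauto

/-- The extension property gives a projective unifier. -/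
theorem projective_of_ext [Finite α] (φ : Fm α)
    (hext : ∀ x : Fm α → Prop, Pt x → x (box 0 φ) →
      ∃ a : α → Prop, pe a (fun j => x (box j.1 j.2)) φ) :
    ∃ τ : α → Fm α, Prv (subst τ φ) ∧
      ∀ v, Pt v → v φ → v (box 0 φ) → ∀ i, v (τ i) ↔ v (var i) := by
  classical
  have := Fintype.ofFinite α
  let l : List (α → Bool) := Finset.univ.toList
  let P : (ℕ × Fm α → Fm α) → α → Fm α := fun s i =>
    ite' (Fm.and φ (box 0 φ)) (var i) (pick φ s l i)
  obtain ⟨s, hs⟩ := fix_system (α := α) Prod.fst (boxes φ).toFinset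
    ((boxes φ).map Prod.fst).sum (fun j s => sk (P s) s j.2)
    (fun j hj => List.single_le_sum (l := (boxes φ).map Prod.fst) (fun _ _ => Nat.zero_le _) j.1
      (List.mem_map_of_mem (List.mem_toFinset.1 hj)))
    (by
      intro j _ s t v hv ha
      rw [sk_iff hv, sk_iff hv]
      refine pe_congr _ (fun i => ?_) (fun j _ => (ha j).1)
      simp only [P, ite'_iff hv]
      rw [pick_congr φ s t hv (fun j => (ha j).1)])
  have hsub : ∀ a : Fm α, (∀ j ∈ boxes a, j ∈ boxes φ) → ∀ v, Pt v →
      (v (subst (P s) a) ↔ v (sk (P s) s a)) := by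
    intro a
    induction a with
    | var i => intro _ v _; exact Iff.rfl
    | bot => intro _ v _; exact Iff.rfl
    | imp a b iha ihb =>
      intro h v hv
      simp only [subst_imp, sk, hv.imp]
      rw [iha (fun j hj => h j (List.mem_append_left _ hj)) v hv,
        ihb (fun j hj => h j (List.mem_append_right _ hj)) v hv]
    | box k a ih =>
      intro h v hv
      simp only [subst_box, sk]
      rw [hs (k, a) (List.mem_toFinset.2 (h _ List.mem_cons_self)) v hv]
      exact box_congr hv (fun w hw _ => ih (fun j hj => h j (List.mem_cons_of_mem _ hj)) w hw)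
  have hsubb : ∀ a : Fm α, ∀ j ∈ boxes a, ∀ j' ∈ boxes j.2, j' ∈ boxes a := by
    intro a
    induction a with
    | var i => intro j hj; exact absurd hj List.not_mem_nil
    | bot => intro j hj; exact absurd hj List.not_mem_nil
    | imp a b iha ihb =>
      intro j hj j' hj'
      rcases List.mem_append.1 hj with h | h
      · exact List.mem_append_left _ (iha j h j' hj')
      · exact List.mem_append_right _ (ihb j h j' hj')
    | box k a ih =>
      intro j hj j' hj'
      rcases List.mem_cons.1 hj with rfl | h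
      · exact List.mem_cons_of_mem _ hj'
      · exact List.mem_cons_of_mem _ (ih j h j' hj')
  have hbox : ∀ j ∈ boxes φ, ∀ v, Pt v → (v (box j.1 (subst (P s) j.2)) ↔ v (s j)) := by
    intro j hj v hv
    rw [hs j (List.mem_toFinset.2 hj) v hv]
    exact box_congr hv (fun w hw _ => hsub j.2 (hsubb φ j hj) w hw)
  have hvar : ∀ v, Pt v → v φ → v (box 0 φ) → ∀ i, v (P s i) ↔ v (var i) := by
    intro v hv h1 h2 i
    simp only [P, ite'_iff hv, hv.and]
    tauto
  have hrep : ∀ a : Fm α, ∀ v, Pt v → v φ → v (box 0 φ) → (v (subst (P s) a) ↔ v a) := by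
    intro a
    induction a with
    | var i => intro v hv h1 h2; exact hvar v hv h1 h2 i
    | bot => intro v _ _ _; exact Iff.rfl
    | imp a b iha ihb =>
      intro v hv h1 h2
      simp only [subst_imp, hv.imp]
      rw [iha v hv h1 h2, ihb v hv h1 h2]
    | box k a ih =>
      intro v hv h1 h2
      exact box_congr hv (fun w hw hR => ih w hw (hR _ (hv.mono (Nat.zero_le k) h2))
        (hv.box_succ (Nat.zero_le k) hR h2))
  have hstep : ∀ v, Pt v → v (box 0 (subst (P s) φ)) → v (subst (P s) φ) := by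
    intro v hv hb
    by_cases hφ : v φ ∧ v (box 0 φ)
    · exact (hrep φ v hv hφ.1 hφ.2).2 hφ.1
    · obtain ⟨a, ha⟩ := hext _ (hv.comap (P s)) hb
      have h1 : pe (fun i => v (pick φ s l i)) (fun j => v (s j)) φ := by
        refine pick_spec φ s hv l ⟨fun i => decide (a i), Finset.mem_toList.2 (Finset.mem_univ _), ?_⟩
        refine (pe_congr φ (fun i => ?_) (fun j hj => hbox j hj v hv)).1 ha
        simp
      rw [subst_iff hv]
      refine (pe_congr φ (fun i => ?_) (fun j hj => (hbox j hj v hv).symm)).1 h1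
      simp only [P, ite'_iff hv, hv.and]
      tauto
  refine ⟨P s, complete (fun v hv => hstep v hv ?_), hvar⟩
  exact hv.loeb (fun w hw _ hb => hstep w hw hb)

/-- Exact formulas of GLP are projective. -/
theorem exact_projective [Finite α] (φ : Fm α) (σ : α → Fm β) (hφ : Prv (subst σ φ))
    (hex : ∀ ψ : Fm α, Prv (subst σ ψ) → Der (fun a => a = φ) ψ) :
    ∃ τ : α → Fm α, Prv (subst τ φ) ∧
      ∀ i, Der (fun a => a = φ) (imp (var i) (τ i)) ∧ Der (fun a => a = φ) (imp (τ i) (var i)) := by
  obtain ⟨τ, h1, h2⟩ := projective_of_ext φ (by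
    intro x hx hxφ
    obtain ⟨x', hx', h⟩ := lift_boxes φ σ (by
      rintro ψ ⟨y, hy, h1, h2, h3⟩
      by_contra hn
      push Not at hn
      have h4 : Prv (subst σ (neg ψ)) := complete (fun v hv => (hv.neg _).2 (hn v hv))
      exact (hy.neg _).1 ((hex _ h4).sem y hy h1 h2) h3) x hx hxφ (boxes φ)
    refine ⟨fun i => x' (σ i), ?_⟩
    exact (pe_congr φ (fun _ => Iff.rfl) h).1 ((subst_iff hx' σ φ).1 (hx'.thm _ hφ)))
  refine ⟨τ, h1, fun i => ⟨Der.of_sem (fun v hv a b => ?_), Der.of_sem (fun v hv a b => ?_)⟩⟩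
  · exact (hv.imp _ _).2 (h2 v hv a b i).2
  · exact (hv.imp _ _).2 (h2 v hv a b i).1

end Pool.Agent.Lib.MP_d338c6_lc
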