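import Pool.Agent.Lib.MP_d338c6_lc.AlgDefs
import Pool.Agent.Lib.MP_d338c6_lc.Fix

/-!
From formulas to algebras.
-/

set_option autoImplicit false

namespace Pool.Agent.Lib.MP_d338c6_lc

open Fm

variable {A B : Type} [BooleanAlgebra A] [BooleanAlgebra B] {X Y : Type}

/-- A map from formulas to an algebra which respects the connectives. -/
structure FH (c : ℕ → A → A) (p : Fm X → A) : Prop where
  bot : p bot = ⊥
  imp : ∀ a b, p (imp a b) = p a ⇨ p b
  box : ∀ n a, p (box n a) = c n (p a)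

/-- The value of a formula. -/
def evalF (c : ℕ → A → A) (y : X → A) : Fm X → A
  | var i => y i
  | bot => ⊥
  | imp a b => evalF c y a ⇨ evalF c y b
  | box n a => c n (evalF c y a)

theorem fh_eval (c : ℕ → A → A) (y : X → A) : FH c (evalF c y) :=
  ⟨rfl, fun _ _ => rfl, fun _ _ => rfl⟩

namespace FH

variable {c : ℕ → A → A} {d : ℕ → B → B} {p q : Fm X → A}

theorem ext' (hp : FH c p) (hq : FH c q) (h : ∀ i, p (var i) = q (var i)) (a : Fm X) :
    p a = q a := by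
  induction a with
  | var i => exact h i
  | bot => rw [hp.bot, hq.bot]
  | imp a b iha ihb => rw [hp.imp, hq.imp, iha, ihb]
  | box n a ih => rw [hp.box, hq.box, ih]

theorem comp (hp : FH c p) {h : BoundedLatticeHom A B} (hh : Comm c d h) :
    FH d fun a => h (p a) :=
  ⟨by rw [hp.bot, map_bot], fun a b => by rw [hp.imp, map_himp], fun n a => by rw [hp.box, hh]⟩

theorem subst' (hp : FH c p) (σ : Y → Fm X) : FH c fun a => p (subst σ a) :=
  ⟨hp.bot, fun _ _ => hp.imp _ _, fun _ _ => hp.box _ _⟩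

theorem top' (hp : FH c p) : p (Fm.imp Fm.bot Fm.bot) = ⊤ := by rw [hp.imp, himp_self]

theorem sup' (hp : FH c p) (a b : Fm X) : p (Fm.imp (Fm.imp a Fm.bot) b) = p a ⊔ p b := by
  rw [hp.imp, hp.imp, hp.bot, himp_bot, himp_eq, compl_compl, sup_comm]

theorem inf' (hp : FH c p) (a b : Fm X) :
    p (Fm.imp (Fm.imp a (Fm.imp b Fm.bot)) Fm.bot) = p a ⊓ p b := by
  rw [hp.imp, hp.imp, hp.imp, hp.bot, himp_bot, himp_bot, himp_eq, compl_sup, compl_compl,
    compl_compl, inf_comm]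

theorem sound (hc : IsGLP c) (hp : FH c p) {Γ : Fm X → Prop} (hΓ : ∀ a, Γ a → p a = ⊤)
    {a : Fm X} (ha : Der Γ a) : p a = ⊤ := by
  induction ha with
  | hyp a ha => exact hΓ a ha
  | k a b => simp only [hp.imp, himp_eq_top_iff, le_himp_iff]; exact inf_le_left
  | s a b e =>
    simp only [hp.imp, himp_eq_top_iff, le_himp_iff]
    have h1 : (p a ⇨ p b ⇨ p e) ⊓ p a ≤ p b ⇨ p e := himp_inf_le
    have h2 : (p a ⇨ p b) ⊓ p a ≤ p b := himp_inf_le
    have h3 : (p b ⇨ p e) ⊓ p b ≤ p e := himp_inf_le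
    refine le_trans (le_inf (le_trans (le_inf ?_ inf_le_right) h1)
      (le_trans (le_inf ?_ inf_le_right) h2)) h3
    · exact inf_le_left.trans inf_le_left
    · exact inf_le_left.trans inf_le_right
  | dne a => simp only [hp.imp, hp.bot, himp_bot, compl_compl, himp_self]
  | dist n a b => simp only [hp.imp, hp.box]; exact hc.dist _ _ _
  | loeb n a => simp only [hp.imp, hp.box]; exact hc.loeb _ _
  | mono m n a h => simp only [hp.imp, hp.box]; exact hc.mono _ _ _ h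
  | dia m n a h => simp only [hp.imp, hp.box, hp.bot, himp_bot]; exact hc.dia _ _ _ h
  | mp a b _ _ iha ihb => rwa [hp.imp, iha, top_himp] at ihb
  | nec n a _ ih => rw [hp.box, ih, hc.nec]

theorem isGLP (hp : FH c p) (hs : Function.Surjective p) (h : ∀ a, Prv a → p a = ⊤) :
    IsGLP c := by
  refine ⟨fun n => ?_, fun n x y => ?_, fun n x => ?_, fun m n x hmn => ?_, fun m n x hmn => ?_⟩
  · rw [← hp.top', ← hp.box, hp.top']
    exact h _ (Der.nec _ _ (prv_id _))
  · obtain ⟨a, rfl⟩ := hs x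
    obtain ⟨b, rfl⟩ := hs y
    simpa only [hp.imp, hp.box] using h _ (Der.dist n a b)
  · obtain ⟨a, rfl⟩ := hs x
    simpa only [hp.imp, hp.box] using h _ (Der.loeb n a)
  · obtain ⟨a, rfl⟩ := hs x
    simpa only [hp.imp, hp.box] using h _ (Der.mono m n a hmn)
  · obtain ⟨a, rfl⟩ := hs x
    simpa only [hp.imp, hp.box, hp.bot, himp_bot] using h _ (Der.dia m n a hmn)

theorem factor {r : Fm X → B} (hp : FH c p) (hs : Function.Surjective p) (hr : FH d r)
    (h : ∀ a, p a = ⊤ → r a = ⊤) :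
    ∃ f : BoundedLatticeHom A B, Comm c d f ∧ ∀ a, f (p a) = r a := by
  have le : ∀ a b, p a = p b → r a ≤ r b := fun a b hab => by
    rw [← himp_eq_top_iff, ← hr.imp]
    exact h _ (by rw [hp.imp, hab, himp_self])
  have key : ∀ a, r (Function.surjInv hs (p a)) = r a := fun a =>
    le_antisymm (le _ _ (Function.surjInv_eq hs _)) (le _ _ (Function.surjInv_eq hs _).symm)
  refine ⟨⟨⟨⟨fun x => r (Function.surjInv hs x), fun x y => ?_⟩, fun x y => ?_⟩, ?_, ?_⟩,
    fun n x => ?_, key⟩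
  · obtain ⟨a, rfl⟩ := hs x
    obtain ⟨b, rfl⟩ := hs y
    rw [← hp.sup', key, key, key, hr.sup']
  · obtain ⟨a, rfl⟩ := hs x
    obtain ⟨b, rfl⟩ := hs y
    show r (Function.surjInv hs (p a ⊓ p b)) =
      r (Function.surjInv hs (p a)) ⊓ r (Function.surjInv hs (p b))
    rw [← hp.inf', key, key, key, hr.inf']
  · show r (Function.surjInv hs ⊤) = ⊤
    rw [← hp.top', key, hr.top']
  · show r (Function.surjInv hs ⊥) = ⊥
    rw [← hp.bot, key, hr.bot]
  · obtain ⟨a, rfl⟩ := hs x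
    show r (Function.surjInv hs (c n (p a))) = d n (r (Function.surjInv hs (p a)))
    rw [← hp.box, key, key, hr.box]

/-- The image of a map which respects the connectives. -/
def rng (hp : FH c p) : BooleanSubalgebra A where
  carrier := Set.range p
  supClosed' := by
    rintro _ ⟨a, rfl⟩ _ ⟨b, rfl⟩
    exact ⟨_, hp.sup' a b⟩
  infClosed' := by
    rintro _ ⟨a, rfl⟩ _ ⟨b, rfl⟩
    exact ⟨_, hp.inf' a b⟩
  compl_mem' := by
    rintro _ ⟨a, rfl⟩
    exact ⟨Fm.imp a Fm.bot, by rw [hp.imp, hp.bot, himp_bot]⟩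
  bot_mem' := ⟨_, hp.bot⟩

/-- The boxes of the image. -/
def rbox (hp : FH c p) (n : ℕ) (x : hp.rng) : hp.rng :=
  ⟨c n x, by
    obtain ⟨_, a, rfl⟩ := x
    exact ⟨_, hp.box n a⟩⟩

/-- The map onto the image. -/
def rmap (hp : FH c p) (a : Fm X) : hp.rng := ⟨p a, a, rfl⟩

theorem fh_rmap (hp : FH c p) : FH hp.rbox hp.rmap :=
  ⟨Subtype.ext hp.bot, fun a b => Subtype.ext (hp.imp a b), fun n a => Subtype.ext (hp.box n a)⟩

theorem rmap_surj (hp : FH c p) : Function.Surjective hp.rmap := by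
  rintro ⟨_, a, rfl⟩
  exact ⟨a, rfl⟩

end FH

/-- The canonical model. -/
theorem exists_canon (X : Type) : ∃ (C : Type) (_ : BooleanAlgebra C) (c : ℕ → C → C)
    (p : Fm X → C), FH c p ∧ Function.Surjective p ∧ ∀ a, p a = ⊤ ↔ Prv a := by
  have hp : FH (A := Set {v : Fm X → Prop // Pt v})
      (fun n s => {v | ∀ w : {v : Fm X → Prop // Pt v}, R n v.1 w.1 → w ∈ s})
      (fun a => {v | v.1 a}) := by
    refine ⟨Set.eq_empty_of_forall_notMem fun v => v.2.bot, fun a b => Set.ext fun v => ?_,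
      fun n a => Set.ext fun v => ⟨fun h w hw => hw a h, fun h => ?_⟩⟩
    · rw [himp_eq]
      have := v.2.imp a b
      simp only [Set.mem_ofPred_eq, Set.sup_eq_union, Set.mem_union, Set.mem_compl_iff]
      tauto
    · exact v.2.box_of fun w hw hR => h ⟨w, hw⟩ hR
  refine ⟨hp.rng, inferInstance, hp.rbox, hp.rmap, hp.fh_rmap, hp.rmap_surj, fun a => ⟨fun h => ?_,
    fun h => Subtype.ext (Set.eq_univ_of_forall fun v => v.2.thm a h)⟩⟩
  have h1 : {v : {v : Fm X → Prop // Pt v} | v.1 a} = Set.univ := congrArg Subtype.val h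
  exact complete fun v hv => (Set.eq_univ_iff_forall.1 h1) ⟨v, hv⟩

/-- Free algebras exist. -/
theorem exists_free (X : Type) : ∃ (C : Type) (_ : BooleanAlgebra C) (c : ℕ → C → C)
    (g : X → C), IsFree c g := by
  obtain ⟨C, _, c, p, hp, hs, h⟩ := exists_canon X
  refine ⟨C, inferInstance, c, fun i => p (var i), hp.isGLP hs fun a => (h a).2, ?_⟩
  intro D _ d hd y
  obtain ⟨f, hf, hf'⟩ := hp.factor hs (fh_eval d y) fun a ha =>
    (fh_eval d y).sound hd (fun _ h => h.elim) ((h a).1 ha)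
  refine ⟨f, ⟨hf, fun i => hf' _⟩, fun f' ⟨h1, h2⟩ => BoundedLatticeHom.ext fun x => ?_⟩
  obtain ⟨a, rfl⟩ := hs x
  rw [hf']
  exact (hp.comp h1).ext' (fh_eval d y) h2 a

/-- A free algebra is the Lindenbaum algebra. -/
theorem IsFree.lind {b : ℕ → A → A} {g : X → A} (h : IsFree b g) :
    Function.Surjective (evalF b g) ∧ ∀ a, evalF b g a = ⊤ ↔ Prv a := by
  have he := fh_eval b g
  have hs : ∀ a, Prv a → evalF b g a = ⊤ := fun a ha => he.sound h.1 (fun _ h => h.elim) ha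
  refine ⟨fun x => ?_, fun a => ⟨fun ha => ?_, hs a⟩⟩
  · have h1 : IsGLP he.rbox := he.fh_rmap.isGLP he.rmap_surj fun a ha => Subtype.ext (hs a ha)
    obtain ⟨f, ⟨f1, f2⟩, -⟩ := h.2 _ _ h1 fun i => he.rmap (var i)
    have h2 := (h.2 _ _ h.1 g).unique (y₁ := he.rng.subtype.comp f) (y₂ := BoundedLatticeHom.id A)
      ⟨fun n x => congrArg Subtype.val (f1 n x), fun i => congrArg Subtype.val (f2 i)⟩
      ⟨fun _ _ => rfl, fun _ => rfl⟩
    obtain ⟨a, ha⟩ := (f x).2
    exact ⟨a, ha.trans (DFunLike.congr_fun h2 x)⟩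
  · obtain ⟨C, _, c, p, hp, hps, hp'⟩ := exists_canon X
    obtain ⟨f, ⟨f1, f2⟩, -⟩ := h.2 _ _ (hp.isGLP hps fun a => (hp' a).2) fun i => p (var i)
    rw [← hp', ← (he.comp f1).ext' hp f2 a, ha, map_top]

theorem Presents.der {b : ℕ → A → A} {g : X → A} (h : IsFree b g) {φ : Fm X} {c : ℕ → B → B}
    {p : BoundedLatticeHom A B} (hp : Presents b (evalF b g φ) c p) {a : Fm X}
    (ha : p (evalF b g a) = ⊤) : Der (fun x => x = φ) a := by
  obtain ⟨hs, hl⟩ := h.lind
  have he := fh_eval b g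
  have up : ∀ a a', evalF b g a ≤ evalF b g a' → Der (fun x => x = φ) a →
      Der (fun x => x = φ) a' := fun a a' hle hd =>
    Der.mp _ _ hd (((hl (imp a a')).1 (by rw [he.imp, himp_eq_top_iff]; exact hle)).der)
  have hF : Order.IsPFilter {x : A | ∃ a, evalF b g a = x ∧ Der (fun x => x = φ) a} := by
    refine Order.IsPFilter.of_def ⟨_, φ, rfl, Der.hyp _ rfl⟩ ?_ ?_
    · rintro _ ⟨a, rfl, ha⟩ _ ⟨a', rfl, ha'⟩
      refine ⟨evalF b g a ⊓ evalF b g a', ⟨_, he.inf' a a', ?_⟩, inf_le_left, inf_le_right⟩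
      refine Der.mp _ _ ha' (Der.mp _ _ ha (Prv.der ((hl _).1 ?_)))
      rw [he.imp, he.imp, he.inf', himp_eq_top_iff, le_himp_iff]
    · rintro _ y hxy ⟨a, rfl, ha⟩
      obtain ⟨a', rfl⟩ := hs y
      exact ⟨a', rfl, up _ _ hxy ha⟩
  obtain ⟨a', h1, h2⟩ := (hp.2.2 _).1 ha hF.toPFilter ⟨φ, rfl, Der.hyp _ rfl⟩ (by
    rintro n _ ⟨a, rfl, ha⟩
    exact ⟨box n a, rfl, Der.nec _ _ ha⟩)
  exact up _ _ h1.le h2

theorem exact_iff_proj {k : ℕ} {b : ℕ → A → A} {g : Fin k → A} (h : IsFree b g) {φ : A}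
    {c : ℕ → B → B} {p : BoundedLatticeHom A B} (hp : Presents b φ c p) :
    IsExact c ↔ IsProj c := by
  refine ⟨?_, ?_⟩
  · rintro ⟨Y, G, _, d, y, hG, e, he, hi⟩
    obtain ⟨hs, hl⟩ := h.lind
    obtain ⟨hs', hl'⟩ := hG.lind
    obtain ⟨φ, rfl⟩ := hs φ
    have h1 := (fh_eval b g).comp hp.1
    have hφ : p (evalF b g φ) = ⊤ := (hp.2.2 _).2 fun _ h _ => h
    have hsur : Function.Surjective fun a => p (evalF b g a) := hp.2.1.comp hs
    have hc : IsGLP c := h1.isGLP hsur fun a ha => by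
      show p (evalF b g a) = ⊤
      rw [(hl a).2 ha, map_top]
    choose σ hσ using fun i => hs' (e (p (g i)))
    have h2 : ∀ a, evalF d y (subst σ a) = e (p (evalF b g a)) :=
      ((fh_eval d y).subst' σ).ext' (h1.comp he) hσ
    obtain ⟨τ, t1, t2⟩ := exact_projective φ σ ((hl' _).1 (by rw [h2, hφ, map_top]))
      fun ψ hψ => hp.der h (hi (by rw [← h2, (hl' _).2 hψ, map_top]))
    have h3 := (fh_eval b g).subst' τ
    obtain ⟨i, i1, i2⟩ := h1.factor hsur h3 fun a ha =>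
      h3.sound h.1 (fun x hx => by rw [hx]; exact (hl _).2 t1) (hp.der h ha)
    refine ⟨k, A, inferInstance, b, g, h, i, p, i1, hp.1, fun x => ?_⟩
    obtain ⟨a, rfl⟩ := hsur x
    rw [i2]
    refine (h3.comp hp.1).ext' h1 (fun j => ?_) a
    have s1 := h1.sound hc (fun x hx => by rw [hx]; exact hφ) (t2 j).1
    have s2 := h1.sound hc (fun x hx => by rw [hx]; exact hφ) (t2 j).2
    rw [h1.imp, himp_eq_top_iff] at s1 s2
    exact le_antisymm s2 s1
  · rintro ⟨m, G, _, d, y, hG, i, r, hi, -, hr⟩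
    exact ⟨Fin m, G, inferInstance, d, y, hG, i, hi, Function.LeftInverse.injective hr⟩

end Pool.Agent.Lib.MP_d338c6_lc
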