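import Mathlib

/-!
GLP-algebras, free algebras, algebras with one relator, exact and projective algebras.
-/

set_option autoImplicit false

namespace Pool.Agent.Lib.MP_d338c6_lc

variable {A B : Type} [BooleanAlgebra A] [BooleanAlgebra B]

/-- The Boolean algebra `A` with the operators `b n` validates the axioms and rules of GLP. -/
structure IsGLP (b : ℕ → A → A) : Prop where
  nec : ∀ n, b n ⊤ = ⊤
  dist : ∀ n x y, b n (x ⇨ y) ⇨ (b n x ⇨ b n y) = ⊤
  loeb : ∀ n x, b n (b n x ⇨ x) ⇨ b n x = ⊤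
  mono : ∀ m n x, m ≤ n → b m x ⇨ b n x = ⊤
  dia : ∀ m n x, m < n → (b m xᶜ)ᶜ ⇨ b n (b m xᶜ)ᶜ = ⊤

/-- The homomorphism `h` of Boolean algebras commutes with the boxes. -/
def Comm (b : ℕ → A → A) (c : ℕ → B → B) (h : BoundedLatticeHom A B) : Prop :=
  ∀ n x, h (b n x) = c n (h x)

/-- `(A, b)` is the free GLP-algebra on the generators `g i`. -/
def IsFree (b : ℕ → A → A) {X : Type} (g : X → A) : Prop :=
  IsGLP b ∧ ∀ (C : Type) [BooleanAlgebra C] (c : ℕ → C → C), IsGLP c → ∀ y : X → C,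
    ∃! h : BoundedLatticeHom A C, Comm b c h ∧ ∀ i, h (g i) = y i

/-- `p` presents `(B, c)` as the quotient of `(A, b)` by the least filter that contains `φ` and
is closed under every box. -/
def Presents (b : ℕ → A → A) (φ : A) (c : ℕ → B → B) (p : BoundedLatticeHom A B) : Prop :=
  Comm b c p ∧ Function.Surjective p ∧
    ∀ x, p x = ⊤ ↔ ∀ S : Order.PFilter A, φ ∈ S → (∀ n, ∀ y ∈ S, b n y ∈ S) → x ∈ S

/-- `(A, b)` is isomorphic to a subalgebra of a free GLP-algebra. -/
def IsExact (b : ℕ → A → A) : Prop :=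
  ∃ (X G : Type) (_ : BooleanAlgebra G) (d : ℕ → G → G) (g : X → G), IsFree d g ∧
    ∃ e : BoundedLatticeHom A G, Comm b d e ∧ Function.Injective e

/-- `(A, b)` is isomorphic to a retract of a finitely generated free GLP-algebra. -/
def IsProj (b : ℕ → A → A) : Prop :=
  ∃ (k : ℕ) (G : Type) (_ : BooleanAlgebra G) (d : ℕ → G → G) (g : Fin k → G), IsFree d g ∧
    ∃ (i : BoundedLatticeHom A G) (r : BoundedLatticeHom G A), Comm b d i ∧ Comm d b r ∧
      ∀ x, r (i x) = x

end Pool.Agent.Lib.MP_d338c6_lc
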