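import Pool.Agent.Lib.MP_d338c6_lc.Basic

set_option autoImplicit false

namespace Pool.Agent.Lib.MP_d338c6_lc.Fm

variable {α : Type}

/-- Replace the occurrences of variables that lie outside all boxes by the truth values `a`. -/
def outer (a : α → Bool) : Fm α → Fm α
  | var i => if a i then imp bot bot else bot
  | bot => bot
  | imp b c => imp (outer a b) (outer a c)
  | box k b => box k b

/-- The disjunction of a list of formulas. -/
def disj : List (Fm α) → Fm α
  | [] => bot
  | b :: l => imp (imp b bot) (disj l)

end Pool.Agent.Lib.MP_d338c6_lc.Fm
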