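import Pool.Agent.Lib.MP_d338c6_lc.Fix

/-!
Translation between first-order terms over the modal signature and the formula type.
-/

set_option autoImplicit false

namespace Pool.Agent.Lib.MP_d338c6_lc

open FirstOrder FirstOrder.Language

variable {L : FirstOrder.Language.{0, 0}} {α β : Type}

/-- From formulas to terms. -/
def toT (c0 : L.Functions 0) (cimp : L.Functions 2) (cbox : ℕ → L.Functions 1) :
    Fm α → L.Term α
  | Fm.var i => Term.var i
  | Fm.bot => Term.func c0 ![]
  | Fm.imp a b => Term.func cimp ![toT c0 cimp cbox a, toT c0 cimp cbox b]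
  | Fm.box k a => Term.func (cbox k) ![toT c0 cimp cbox a]

/-- One step of the translation from terms to formulas. -/
def step (lev : L.Functions 1 → ℕ) : (n : ℕ) → L.Functions n → (Fin n → Fm α) → Fm α
  | 0, _, _ => Fm.bot
  | 1, f, ts => Fm.box (lev f) (ts 0)
  | 2, _, ts => Fm.imp (ts 0) (ts 1)
  | _ + 3, _, _ => Fm.bot

/-- From terms to formulas. -/
def ofT (lev : L.Functions 1 → ℕ) : L.Term α → Fm α
  | Term.var i => Fm.var i
  | Term.func f ts => step lev _ f (fun i => ofT lev (ts i))

theorem step_subst (lev : L.Functions 1 → ℕ) (σ : α → Fm β) (n : ℕ) (f : L.Functions n)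
    (ts : Fin n → Fm α) :
    Fm.subst σ (step lev n f ts) = step lev n f (fun i => Fm.subst σ (ts i)) := by
  match n, f, ts with
  | 0, _, _ => rfl
  | 1, _, _ => rfl
  | 2, _, _ => rfl
  | _ + 3, _, _ => rfl

theorem ofT_subst (lev : L.Functions 1 → ℕ) (σ : α → L.Term β) (t : L.Term α) :
    ofT lev (t.subst σ) = Fm.subst (fun i => ofT lev (σ i)) (ofT lev t) := by
  induction t with
  | var i => rfl
  | func f ts ih =>
    simp only [Term.subst, ofT, step_subst, ih]

theorem ofT_relabel (lev : L.Functions 1 → ℕ) (g : α → β) (t : L.Term α) :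
    ofT lev (t.relabel g) = Fm.subst (fun i => Fm.var (g i)) (ofT lev t) := by
  induction t with
  | var i => rfl
  | func f ts ih =>
    simp only [Term.relabel, ofT, step_subst, ih]

theorem ofT_toT (c0 : L.Functions 0) (cimp : L.Functions 2) (cbox : ℕ → L.Functions 1)
    (lev : L.Functions 1 → ℕ) (hlev : ∀ k, lev (cbox k) = k) (a : Fm α) :
    ofT lev (toT c0 cimp cbox a) = a := by
  induction a with
  | var i => rfl
  | bot => rfl
  | imp a b iha ihb => simp [toT, ofT, step, iha, ihb]
  | box k a ih => simp [toT, ofT, step, ih, hlev]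

theorem toT_ofT (c0 : L.Functions 0) (cimp : L.Functions 2) (cbox : ℕ → L.Functions 1)
    (h0 : ∀ f : L.Functions 0, f = c0) (h2 : ∀ f : L.Functions 2, f = cimp)
    (h3 : ∀ n : ℕ, 3 ≤ n → IsEmpty (L.Functions n))
    (lev : L.Functions 1 → ℕ) (hlev : ∀ f, cbox (lev f) = f) (t : L.Term α) :
    toT c0 cimp cbox (ofT lev t) = t := by
  induction t with
  | var i => rfl
  | @func n f ts ih =>
    match n, f, ts, ih with
    | 0, f, ts, _ =>
      simp only [ofT, step, toT, h0 f]
      congr 1
      funext i
      exact i.elim0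
    | 1, f, ts, ih =>
      simp only [ofT, step, toT, hlev, ih]
      congr 1
      funext i
      fin_cases i
      rfl
    | 2, f, ts, ih =>
      simp only [ofT, step, toT, h2 f, ih]
      congr 1
      funext i
      fin_cases i <;> rfl
    | n + 3, f, _, _ => exact ((h3 (n + 3) (by omega)).false f).elim

end Pool.Agent.Lib.MP_d338c6_lc
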